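import Pool.Agent.Lib.MP_ce9660_ag.Main

/-!
A function field of transcendence degree four over `ℂ` whose 2660-canonical map is birational and
whose 190-canonical map is not birational.
-/

namespace Pool.Agent.Results.MP_ce9660_ag.RFour

open Pool.Agent.Lib.MP_ce9660_ag

theorem result : ∃ (K : Type) (_ : Field K) (_ : Algebra ℂ K) (τ : Fin 4 → K) (ζ : K)
    (D : Fin 4 → Derivation ℂ K K), AlgebraicIndependent ℂ τ ∧
    ζ ^ 2 + τ 0 ^ 31 + τ 0 ^ 28 * τ 1 + τ 1 ^ 16 * τ 2 + τ 2 ^ 7 + τ 3 ^ 5 = 0 ∧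
    IntermediateField.adjoin ℂ (insert ζ (Set.range τ)) = ⊤ ∧
    (∀ a b, D a (τ b) = if a = b then 1 else 0) ∧ Birat D 2660 ∧ ¬ Birat D 190 :=
  main

end Pool.Agent.Results.MP_ce9660_ag.RFour
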